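import Pool.Agent.H121.UE.Iface

/-!
# UE-CHAIN (helper181 for helper121)
-/

set_option autoImplicit false

open scoped BigOperators ENNReal

namespace Pool.Agent.H181.UE

open Pool.Agent.H121.UE

section

variable {ι : Type} (P : ι → ι → ℝ≥0∞) (g c : ι → ℝ≥0∞)

theorem pk_zero (p : ℕ → ι) : pk P p 0 = 1 := by
  unfold pk
  rw [Finset.prod_range_zero]

theorem pk_succ' (p : ℕ → ι) (i : ℕ) :
    pk P p (i + 1) = P (p 0) (p 1) * pk P (fun j => p (j + 1)) i := by
  unfold pk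
  rw [Finset.prod_range_succ', mul_comm]

open Classical in
/-- one step without the next point -/
noncomputable def ee (p : ℕ → ι) (v : ι) : ℝ≥0∞ := if v = p 1 then 0 else P (p 0) v

theorem Wb_zero (κ : ℝ≥0∞) (p : ℕ → ι) (v : ι) : Wb P κ p 0 v = κ * P (p 0) v := by
  unfold Wb
  rw [Finset.sum_range_zero, zero_add, pk_zero, one_mul]

theorem Wb_succ (κ : ℝ≥0∞) (p : ℕ → ι) (n : ℕ) (v : ι) :
    Wb P κ p (n + 1) v = ee P p v + P (p 0) (p 1) * Wb P κ (fun j => p (j + 1)) n v := by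
  classical
  unfold Wb
  rw [Finset.sum_range_succ', pk_zero, one_mul, mul_add, Finset.mul_sum, pk_succ']
  have h1 : ∀ i ∈ Finset.range n, pk P p (i + 1) * (if v = p (i + 1 + 1) then 0 else P (p (i + 1)) v) =
      P (p 0) (p 1) * (pk P (fun j => p (j + 1)) i *
        (if v = p (i + 1 + 1) then 0 else P (p (i + 1)) v)) := by
    intro i _
    rw [pk_succ', mul_assoc]
  rw [Finset.sum_congr rfl h1]
  have h2 : ee P p v = if v = p (0 + 1) then 0 else P (p 0) v := rfl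
  rw [h2]
  ring

/-- the bound -/
noncomputable def BB (κ : ℝ≥0∞) (p : ℕ → ι) (n : ℕ) : ℝ≥0∞ :=
  ∑ i ∈ Finset.range n, pk P p i * c (p i) + κ * (pk P p n * c (p n)) + ∑' v, Wb P κ p n v * g v

theorem BB_zero (κ : ℝ≥0∞) (p : ℕ → ι) :
    BB P g c κ p 0 = κ * (c (p 0) + ∑' u, P (p 0) u * g u) := by
  unfold BB
  rw [Finset.sum_range_zero, zero_add, pk_zero, one_mul, mul_add, ← ENNReal.tsum_mul_left]
  congr 1
  refine tsum_congr fun v => ?_
  rw [Wb_zero, mul_assoc]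

theorem BB_succ (κ : ℝ≥0∞) (p : ℕ → ι) (n : ℕ) :
    BB P g c κ p (n + 1) = c (p 0) + ∑' v, ee P p v * g v +
      P (p 0) (p 1) * BB P g c κ (fun j => p (j + 1)) n := by
  unfold BB
  have h1 : ∑' v, Wb P κ p (n + 1) v * g v = ∑' v, ee P p v * g v +
      P (p 0) (p 1) * ∑' v, Wb P κ (fun j => p (j + 1)) n v * g v := by
    rw [← ENNReal.tsum_mul_left, ← ENNReal.tsum_add]
    refine tsum_congr fun v => ?_
    rw [Wb_succ]
    ring
  have h2 : ∑ i ∈ Finset.range (n + 1), pk P p i * c (p i) = c (p 0) +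
      P (p 0) (p 1) * ∑ i ∈ Finset.range n, pk P (fun j => p (j + 1)) i * c (p (i + 1)) := by
    rw [Finset.sum_range_succ', pk_zero, one_mul, add_comm, Finset.mul_sum]
    congr 1
    refine Finset.sum_congr rfl fun i _ => ?_
    rw [pk_succ', mul_assoc]
  rw [h1, h2, pk_succ']
  ring

theorem step (p : ℕ → ι) : ∑' u, P (p 0) u * g u =
    ∑' v, ee P p v * g v + P (p 0) (p 1) * g (p 1) := by
  classical
  have h1 : ∀ u, P (p 0) u * g u = ee P p u * g u +
      (if u = p 1 then P (p 0) (p 1) * g (p 1) else 0) := by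
    intro u
    unfold ee
    split_ifs with h
    · rw [h, zero_mul, zero_add]
    · rw [add_zero]
  rw [tsum_congr h1, ENNReal.tsum_add, tsum_ite_eq]

theorem Wb_mono {κ : ℝ≥0∞} (hκ : κ ≤ 1) (p : ℕ → ι) (n : ℕ) (v : ι) :
    κ * Wb P 1 p n v ≤ Wb P κ p n v := by
  unfold Wb
  rw [mul_add]
  refine add_le_add ?_ (le_of_eq ?_)
  · exact mul_le_of_le_one_left' hκ
  · ring

theorem BB_mono {κ : ℝ≥0∞} (hκ : κ ≤ 1) (p : ℕ → ι) (n : ℕ) :
    κ * BB P g c 1 p n ≤ BB P g c κ p n := by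
  unfold BB
  rw [mul_add, mul_add, one_mul, ← ENNReal.tsum_mul_left]
  refine add_le_add (add_le_add ?_ le_rfl) (ENNReal.tsum_le_tsum fun v => ?_)
  · exact mul_le_of_le_one_left' hκ
  · rw [← mul_assoc]
    gcongr
    exact Wb_mono P hκ p n v

theorem main {κ : ℝ≥0∞} (hκ : κ ≤ 1) (n : ℕ) : ∀ p : ℕ → ι,
    (∀ i ≤ n, g (p i) ≤ c (p i) + ∑' u, P (p i) u * g u) →
    g (p 0) ≤ BB P g c 1 p n ∧
    ((∃ i ≤ n, g (p i) ≤ κ * (c (p i) + ∑' u, P (p i) u * g u)) → g (p 0) ≤ BB P g c κ p n) := by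
  induction n with
  | zero =>
    intro p h
    constructor
    · rw [BB_zero, one_mul]
      exact h 0 le_rfl
    · rintro ⟨i, hi, h2⟩
      obtain rfl : i = 0 := Nat.le_zero.1 hi
      rw [BB_zero]
      exact h2
  | succ n ih =>
    intro p h
    obtain ⟨h1, h2⟩ := ih (fun j => p (j + 1)) (fun i hi => h (i + 1) (by omega))
    have h3 := h 0 (Nat.zero_le _)
    rw [step, ← add_assoc] at h3
    have h4 : c (p 0) + ∑' v, ee P p v * g v + P (p 0) (p 1) * g (p 1) ≤
        BB P g c 1 p (n + 1) := by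
      rw [BB_succ]
      gcongr
    refine ⟨h3.trans h4, ?_⟩
    rintro ⟨i, hi, h5⟩
    rcases i with _ | i
    · rw [step, ← add_assoc] at h5
      refine h5.trans (le_trans ?_ (BB_mono P g c hκ p (n + 1)))
      gcongr
    · have h6 := h2 ⟨i, by omega, h5⟩
      refine h3.trans ?_
      rw [BB_succ]
      gcongr

end

/-- **UE-CHAIN** -/
theorem chain : S_chain := by
  intro ι P κ p n g c hκ h h'
  refine ((main P g c hκ n p h).2 h').trans ?_
  unfold BB
  rw [Finset.sum_range_succ]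
  exact add_le_add (add_le_add le_rfl (mul_le_of_le_one_left' hκ)) le_rfl

end Pool.Agent.H181.UE
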